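import Pool.Agent.H69C.Par

/-!
# H69C/Core: the abstract theorem on unions of few sets with few exceptions (MP_b7da94_lc)
-/

set_option autoImplicit false

namespace LSA

open LSC

/-- The condition of `exists_pick`. -/
theorem pick_cond {γ δ : ℝ} {c K J s m e : ℕ} (hm : 0 < m)
    (hm2 : (m : ℝ) ≤ 2 ^ (γ * (qn K J s : ℕ))) (he : (e : ℝ) ≤ 2 ^ (δ * (qn K J s : ℕ)))
    (h1 : (32 : ℝ) * 2 ^ (c * (s + 1)) * (2 : ℝ) ^ (γ * (qn K J s : ℕ)) ≤ 2 ^ (K * (s + 1)))
    (h2 : (32 : ℝ) * 2 ^ (c * (s + 1)) * (2 : ℝ) ^ ((γ + δ) * (qn K J s : ℕ)) ≤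
      2 ^ (K * (s + 1)) * 2 ^ qr J s) :
    e + m * (9 * 2 ^ (c * (s + 1)) * (e + 2 ^ qr J s)) < qp K s * 2 ^ qr J s := by
  have hp : (2 : ℝ) ^ (K * (s + 1)) ≤ (qp K s : ℕ) := by exact_mod_cast (qp_spec K s).2.1
  have hm1 : (1 : ℝ) ≤ m := by exact_mod_cast hm
  have hT : (1 : ℝ) ≤ 2 ^ (c * (s + 1)) := one_le_pow₀ (by norm_num)
  have hR : (0 : ℝ) < 2 ^ qr J s := by positivity
  have he0 : (0 : ℝ) ≤ e := Nat.cast_nonneg e
  have e1 : (m : ℝ) * e ≤ (2 : ℝ) ^ ((γ + δ) * (qn K J s : ℕ)) := by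
    rw [add_mul, Real.rpow_add (by norm_num)]
    exact mul_le_mul hm2 he he0 (by positivity)
  set A : ℝ := 2 ^ (c * (s + 1)) with hA
  set B : ℝ := ((qp K s : ℕ) : ℝ) with hB
  set R : ℝ := 2 ^ qr J s with hR'
  have e2 : 32 * (A * (m * e)) ≤ B * R := by
    calc 32 * (A * (m * e)) = 32 * A * (m * e) := by ring
      _ ≤ 32 * A * (2 : ℝ) ^ ((γ + δ) * (qn K J s : ℕ)) :=
          mul_le_mul_of_nonneg_left e1 (by positivity)
      _ ≤ _ := h2
      _ ≤ B * R := mul_le_mul_of_nonneg_right hp hR.le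
  have e3 : 32 * (A * m) ≤ B := by
    calc 32 * (A * m) = 32 * A * m := by ring
      _ ≤ 32 * A * (2 : ℝ) ^ (γ * (qn K J s : ℕ)) := mul_le_mul_of_nonneg_left hm2 (by positivity)
      _ ≤ _ := h1
      _ ≤ B := hp
  have e4 : 32 * (A * m) * R ≤ B * R := mul_le_mul_of_nonneg_right e3 hR.le
  have e5 : (e : ℝ) ≤ A * (m * e) := by
    calc (e : ℝ) = 1 * (1 * e) := by ring
      _ ≤ A * (m * e) := mul_le_mul hT (mul_le_mul_of_nonneg_right hm1 he0) (by positivity)
          (by positivity)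
  have e6 : 0 < A * m * R := by positivity
  have key : (e : ℝ) + m * (9 * A * (e + R)) < B * R := by nlinarith
  have key2 : ((e + m * (9 * 2 ^ (c * (s + 1)) * (e + 2 ^ qr J s)) : ℕ) : ℝ) <
      ((qp K s * 2 ^ qr J s : ℕ) : ℝ) := by
    push_cast
    exact key
  exact_mod_cast key2

theorem core3 {C D : NClass} [Calc C] [Calc D] (hl : LocChk C D) {γ δ : ℝ} (hγ : 0 ≤ γ)
    (hδ : 0 ≤ δ) (hγδ : 2 * γ + δ < 1) (H : CovIncl γ δ C D) (P : ℕ → Prop) (hP : Pr D P) :
    Pr C P := by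
  classical
  obtain ⟨F, c, hF, hG⟩ := hl P hP
  obtain ⟨K, J, hKJ⟩ := exists_K γ δ hγ hδ hγδ c
  obtain ⟨Q, c', n0, hQ, hW⟩ := H (LC c K J F) (Pr.LC c K J hF)
  -- the parameter
  set sa : ℕ → ℕ := fun a => Nat.size a + n0 with hsa
  have hsaf : Fn C sa := by
    show Fn C (fun a : ℕ => Nat.size a + n0)
    fun_prop
  have hsav : Lv sa := ⟨1 + n0, fun a => by
    rw [sz_nat, hsa]
    show Nat.size a + n0 ≤ _
    nlinarith⟩
  -- the table
  have hf1 : Fn C (fun q : ℕ × ℕ × ℕ => sa q.2.1) := hsaf.comp (by fun_prop)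
  have hv1 : Lv (fun q : ℕ × ℕ × ℕ => sa q.2.1) :=
    Lv.comp (C := C) hsav (g := fun q : ℕ × ℕ × ℕ => q.2.1) (by fun_prop)
  have hp1 := Fn.qp K hf1 hv1
  have hf2 : Fn C (fun q : (ℕ × ℕ × ℕ) × ℕ => sa q.1.2.1) := hsaf.comp (by fun_prop)
  have hv2 : Lv (fun q : (ℕ × ℕ × ℕ) × ℕ => sa q.1.2.1) :=
    Lv.comp (C := C) hsav (g := fun q : (ℕ × ℕ × ℕ) × ℕ => q.1.2.1) (by fun_prop)
  have hp2 := Fn.qp K hf2 hv2
  have hm2 := Fn.pow_qm K hf2 hv2
  have hf3 : Fn C (fun q : ((ℕ × ℕ × ℕ) × ℕ) × ℕ => sa q.1.1.2.1) := hsaf.comp (by fun_prop)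
  have hv3 : Lv (fun q : ((ℕ × ℕ × ℕ) × ℕ) × ℕ => sa q.1.1.2.1) :=
    Lv.comp (C := C) hsav (g := fun q : ((ℕ × ℕ × ℕ) × ℕ) × ℕ => q.1.1.2.1) (by fun_prop)
  have hm3 := Fn.pow_qm K hf3 hv3
  have hr3 := Fn.pow_qr J hf3 hv3
  have hQ3 : Pr C (fun q : ((ℕ × ℕ × ℕ) × ℕ) × ℕ =>
      Q (wd K J (sa q.1.1.2.1) q.1.1.2.1 q.1.2 q.2
        (q.1.1.1 / 2 ^ qm K (sa q.1.1.2.1) / 2 ^ qm K (sa q.1.1.2.1) / 2 ^ qm K (sa q.1.1.2.1) %
          2 ^ qr J (sa q.1.1.2.1)),
        q.1.1.1 / 2 ^ qm K (sa q.1.1.2.1) / 2 ^ qm K (sa q.1.1.2.1) / 2 ^ qm K (sa q.1.1.2.1) /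
          2 ^ qr J (sa q.1.1.2.1))) := by
    refine hQ.comp (f := fun q : ((ℕ × ℕ × ℕ) × ℕ) × ℕ =>
      (wd K J (sa q.1.1.2.1) q.1.1.2.1 q.1.2 q.2
        (q.1.1.1 / 2 ^ qm K (sa q.1.1.2.1) / 2 ^ qm K (sa q.1.1.2.1) / 2 ^ qm K (sa q.1.1.2.1) %
          2 ^ qr J (sa q.1.1.2.1)),
        q.1.1.1 / 2 ^ qm K (sa q.1.1.2.1) / 2 ^ qm K (sa q.1.1.2.1) / 2 ^ qm K (sa q.1.1.2.1) /
          2 ^ qr J (sa q.1.1.2.1))) ?_
    refine LSC.Fn.pair ?_ (by fun_prop)
    exact Fn.wd K J hf3 hv3 (by fun_prop) (by fun_prop) (by fun_prop) (by fun_prop)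
  have hSC : Pr C (fun q : (ℕ × ℕ × ℕ) × ℕ => SQ K J sa Q q.1 q.2) := by
    refine Pr.and ?_ ?_
    · exact Pr.lt (by fun_prop) (by fun_prop)
    · exact Pr.ex (n := fun q : (ℕ × ℕ × ℕ) × ℕ => qp K (sa q.1.2.1)) hp2 hQ3
  have hwC : Fn C (fun q : (ℕ × ℕ × ℕ) × ℕ => wQ K J sa Q q.1 q.2) :=
    Fn.mu (n := fun q : (ℕ × ℕ × ℕ) × ℕ => qp K (sa q.1.2.1)) hp2 hQ3
  have hGC : Pr C (fun q : ℕ × ℕ × ℕ =>
      lag (qp K (sa q.2.1)) (qp K (sa q.2.1)) (SQ K J sa Q q) (wQ K J sa Q q) q.2.2 = 1) := by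
    refine Pr.eq ?_ (by fun_prop)
    exact Fn.lag hp1 hp1 (by fun_prop) hSC hwC (fun q => (qp_spec K _).1.pos)
  obtain ⟨ok, out, hok, hout, h1, h2⟩ := hG _ hGC
  -- the advice
  have hgood : ∀ a, ∃ u, Nat.size u ≤ (c' + 2) * (qn K J (sa a) + 1) ∧ ok (u, a) := by
    intro a
    have hqn : n0 ≤ qn K J (sa a) := by
      unfold qn
      show n0 ≤ 2 * qm K (Nat.size a + n0) + qr J (Nat.size a + n0) + (Nat.size a + n0)
      omega
    obtain ⟨W, hW1, hW2, hW3⟩ := hW _ hqn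
    obtain ⟨hpp, hp3, hp4⟩ := qp_spec K (sa a)
    have ha : a < 2 ^ sa a := (Nat.lt_size_self a).trans_le
      (Nat.pow_le_pow_right (by norm_num) (by show Nat.size a ≤ Nat.size a + n0; omega))
    set p := qp K (sa a) with hp
    set R := 2 ^ qr J (sa a) with hR
    set T := 2 ^ (c * (sa a + 1)) with hT
    have hT0 : 0 < T := by positivity
    have hpvlt : ∀ x < p, pv c K F (sa a) a x < p := fun x _ => lag_lt hpp.pos _ _ _ _
    -- the exceptions
    set Ex := (Finset.range (2 ^ qn K J (sa a))).filter fun x =>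
      ¬ (LC c K J F (2 ^ qn K J (sa a) + x) ↔ ∃ y ∈ W, Q (2 ^ qn K J (sa a) + x, y)) with hEx
    set ev : ℕ × ℕ × ℕ → ℕ := fun q =>
      q.1 + 2 ^ qm K (sa a) * (q.2.1 + 2 ^ qm K (sa a) * (q.2.2 + 2 ^ qr J (sa a) * a)) with hev
    set Exc : Finset (ℕ × ℕ × ℕ) := ((Finset.range p) ×ˢ ((Finset.range p) ×ˢ
      (Finset.range R))).filter fun q => ev q ∈ Ex with hExc
    have hExc1 : Exc.card ≤ Ex.card := by
      refine Finset.card_le_card_of_injOn ev ?_ ?_
      · intro q hq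
        exact (Finset.mem_filter.1 hq).2
      · intro q hq q' hq' hqq
        have hq1 := (Finset.mem_filter.1 hq).1
        have hq2 := (Finset.mem_filter.1 hq').1
        simp only [Finset.mem_product, Finset.mem_range] at hq1 hq2
        obtain ⟨b1, b2, b3⟩ := hq1
        obtain ⟨c1, c2, c3⟩ := hq2
        have f1 : q.1 = q'.1 := by
          have := congrArg (fun m => m % 2 ^ qm K (sa a)) hqq
          simp only [hev] at this
          rwa [digit_mod (b1.trans hp4), digit_mod (c1.trans hp4)] at this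
        have f2 := congrArg (fun m => m / 2 ^ qm K (sa a)) hqq
        simp only [hev] at f2
        rw [digit_div (b1.trans hp4), digit_div (c1.trans hp4)] at f2
        have f3 : q.2.1 = q'.2.1 := by
          have := congrArg (fun m => m % 2 ^ qm K (sa a)) f2
          beta_reduce at this
          rwa [digit_mod (b2.trans hp4), digit_mod (c2.trans hp4)] at this
        have f4 := congrArg (fun m => m / 2 ^ qm K (sa a)) f2
        beta_reduce at f4
        rw [digit_div (b2.trans hp4), digit_div (c2.trans hp4)] at f4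
        have f5 : q.2.2 = q'.2.2 := by
          have := congrArg (fun m => m % 2 ^ qr J (sa a)) f4
          beta_reduce at this
          rwa [digit_mod b3, digit_mod c3] at this
        exact Prod.ext f1 (Prod.ext f3 f5)
    -- which words of the form `(a, r, x, y)` belong to the sets
    have hmem : ∀ r < R, ∀ x < p, ∀ z < p, (x, z, r) ∉ Exc →
        ((∃ y ∈ W, Q (wd K J (sa a) a x z r, y)) ↔ pv c K F (sa a) a x = z) := by
      intro r hr x hx z hz hne
      have h5 := LC_wd (c := c) (F := F) ha (hx.trans hp4) (hz.trans hp4) hr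
      have h6 : ev (x, z, r) ∉ Ex := by
        intro h
        apply hne
        rw [hExc, Finset.mem_filter]
        simp only [Finset.mem_product, Finset.mem_range]
        exact ⟨⟨hx, hz, hr⟩, h⟩
      have h7 : LC c K J F (2 ^ qn K J (sa a) + ev (x, z, r)) ↔
          ∃ y ∈ W, Q (2 ^ qn K J (sa a) + ev (x, z, r), y) := by
        by_contra h8
        apply h6
        rw [hEx, Finset.mem_filter, Finset.mem_range]
        exact ⟨wd_lt ha (hx.trans hp4) (hz.trans hp4) hr, h8⟩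
      have h8 : LC c K J F (wd K J (sa a) a x z r) ↔
          ∃ y ∈ W, Q (wd K J (sa a) a x z r, y) := h7
      rw [← h8, h5]
      exact ⟨fun h => h.2, fun h => ⟨hx, h⟩⟩
    have hExR : (Ex.card : ℝ) ≤ 2 ^ (δ * (qn K J (sa a) : ℕ)) := by
      convert hW3
    have hWne : 0 < W.card := by
      by_contra h0
      have hW0 : W.card = 0 := by omega
      have hW0' := Finset.card_eq_zero.1 hW0
      -- all points of the graph are exceptions
      have h9 : p * R ≤ Exc.card := by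
        have : ((Finset.range p) ×ˢ (Finset.range R)).card ≤ Exc.card := by
          refine Finset.card_le_card_of_injOn (fun q => (q.1, pv c K F (sa a) a q.1, q.2)) ?_ ?_
          · intro q hq
            rw [Finset.mem_coe, Finset.mem_product, Finset.mem_range, Finset.mem_range] at hq
            by_contra hne
            have := (hmem q.2 hq.2 q.1 hq.1 _ (hpvlt q.1 hq.1) hne).2 rfl
            rw [hW0'] at this
            obtain ⟨y, hy, -⟩ := this
            exact absurd hy (Finset.notMem_empty y)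
          · rintro ⟨a1, a2⟩ - ⟨b1, b2⟩ - hqq
            simp only [Prod.mk.injEq] at hqq
            obtain ⟨g1, -, g2⟩ := hqq
            subst g1 g2
            rfl
        rwa [Finset.card_product, Finset.card_range, Finset.card_range] at this
      have h10 := pick_cond (c := c) (K := K) (J := J) (s := sa a) (m := 1) (e := Ex.card)
        one_pos (by
          rw [Nat.cast_one]
          exact Real.one_le_rpow (by norm_num) (by positivity)) hExR (hKJ (sa a)).1 (hKJ (sa a)).2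
      have h11 : p * R ≤ Ex.card := h9.trans hExc1
      have h12 : Ex.card < qp K (sa a) * 2 ^ qr J (sa a) :=
        lt_of_le_of_lt (Nat.le_add_right _ _) h10
      exact absurd h11 (not_le.2 h12)
    have hcond := pick_cond (c := c) (K := K) (J := J) (s := sa a) (m := W.card) (e := Ex.card)
      hWne hW1 hExR (hKJ (sa a)).1 (hKJ (sa a)).2
    obtain ⟨y, hyW, r, hr, A, E, hA, hE, hd, hAE, hAg, hEg⟩ := exists_pick (p := p) (R := R)
      (g := pv c K F (sa a) a) hpvlt (W := W)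
      (Rl := fun y r x z => Q (wd K J (sa a) a x z r, y)) hExc1 hmem hT0 hcond
    obtain ⟨u, hu, v, hv, z, hz, hz1, hz2⟩ := exists_hash hpp hA hE hd hT0 hAE
    have hu' := hu.trans hp4
    have hv' := hv.trans hp4
    have hz' := lt_of_le_of_lt hz hp4
    refine ⟨pk K J (sa a) u v z r y, pk_size hu' hv' hz' hr (hW2 y hyW), h2 _ _ fun t ht => ?_⟩
    have htT : t < T := ht.trans_le (Nat.pow_le_pow_right (by norm_num)
      (Nat.mul_le_mul_left _ (by show Nat.size a + 1 ≤ Nat.size a + n0 + 1; omega)))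
    have hTp : T ≤ p := by
      refine hz2.trans ((Finset.card_le_card (Finset.filter_subset _ _)).trans ?_)
      have := Finset.card_le_card hA
      rwa [Finset.card_range] at this
    show lag p p (SQ K J sa Q (pk K J (sa a) u v z r y, a, t))
      (wQ K J sa Q (pk K J (sa a) u v z r y, a, t)) t = 1 ↔ F (a, t)
    have hlag := lag_lag (p := p) (T := T) hpp hTp
      (F := fun t => if F (a, t) then 1 else 0)
      (S := SQ K J sa Q (pk K J (sa a) u v z r y, a, t))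
      (w := wQ K J sa Q (pk K J (sa a) u v z r y, a, t))
      (fun t _ => by
        have := hpp.one_lt
        split_ifs <;> omega) ?_ ?_ htT
    · rw [hlag]
      show (if F (a, t) then 1 else 0) = 1 ↔ F (a, t)
      split_ifs with h <;> simp [h]
    · refine hz2.trans (Finset.card_le_card fun x hx => ?_)
      rw [Finset.mem_filter] at hx
      have hxp := Finset.mem_range.1 (hA hx.1)
      rw [Finset.mem_filter]
      exact ⟨hA hx.1, (SQ_pk hu' hv' hz' hr).2 ⟨hx.2, _, hpvlt x hxp, hAg x hx.1⟩⟩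
    · intro x hx hSx
      obtain ⟨hxz, y', hy', hQy⟩ := (SQ_pk hu' hv' hz' hr).1 hSx
      have hxE : x ∉ E := fun h => hz1 x h hxz
      rw [wQ_pk hu' hv' hz' hr]
      have h12 : (mu p fun y' => Q (wd K J (sa a) a x y' r, y)) < p := by
        refine lt_of_le_of_lt ?_ hy'
        by_contra hcon
        exact mu_min (not_le.1 hcon) hQy
      exact hEg x hx hxE _ h12 (mu_spec (p := fun y' => Q (wd K J (sa a) a x y' r, y)) h12)
  -- the search for the advice
  have key : ∀ a, P a ↔ ∃ u < 2 ^ ((c' + 2) * (qn K J (sa a) + 1)), ok (u, a) ∧ out (u, a) := by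
    intro a
    constructor
    · intro hPa
      obtain ⟨u, hu, hu2⟩ := hgood a
      exact ⟨u, (Nat.lt_size_self _).trans_le (Nat.pow_le_pow_right (by norm_num) hu), hu2,
        (h1 _ _ hu2).2 hPa⟩
    · rintro ⟨u, -, h3, h4⟩
      exact (h1 _ _ h3).1 h4
  refine Pr.congr ?_ key
  refine Pr.ex (n := fun a => 2 ^ ((c' + 2) * (qn K J (sa a) + 1)))
    (p := fun a u => ok (u, a) ∧ out (u, a)) ?_ ?_
  · obtain ⟨cq, hcq⟩ := qn_lin K J
    obtain ⟨c'', hc''⟩ := hsav.lin (f := fun n => (c' + 2) * (qn K J n + 1))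
      ⟨(c' + 2) * (cq + 1), fun n => by
        rw [mul_assoc]
        refine Nat.mul_le_mul_left _ ?_
        have := hcq n
        nlinarith⟩
    refine Fn.pow2 ?_ c'' hc''
    have := Fn.qn K J hsaf
    fun_prop
  · exact (hok.comp (f := fun p : ℕ × ℕ => (p.2, p.1)) (by fun_prop)).and
      (hout.comp (f := fun p : ℕ × ℕ => (p.2, p.1)) (by fun_prop))

end LSA
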