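import Pool.Agent.H69C.Mach

/-!
# The inclusions between DLBA, LBA, E and unions of few easy sets
-/

set_option autoImplicit false

namespace Pool.Agent.Results.MP_b7da94_lc.FewEasySets

open H85L

/-- For any two of the classes `DLBA`, `LBA`, `E` and all `γ, δ ≥ 0` with `2 γ + δ < 1`: the first class is
contained in the second if (and only if) for every binary language `L` of the first class there is a
language `R` of the second class such that, for all large `n`, the set of the words of length `n` in `L`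
is, up to at most `2 ^ (δ n)` exceptions, the union of at most `2 ^ (γ n)` of the sets
`{w | the word of the pairs (w i, y i) is in R}`. -/
theorem result (κ₁ κ₂ : Kind) (h₁ : κ₁.det = true ∨ κ₁.time = false)
    (h₂ : κ₂.det = true ∨ κ₂.time = false) (γ δ : ℝ) (hγ : 0 ≤ γ) (hδ : 0 ≤ δ)
    (hγδ : 2 * γ + δ < 1) :
    LinIncl κ₂ κ₁ ↔ ∀ L : Set (List Bool), LinClass κ₂ L →
      ∃ (k : ℕ) (R : Set (List (Bool × (Fin k → Bool)))) (n0 : ℕ), LinClass κ₁ R ∧
        ∀ n ≥ n0, ∃ Y : Finset (Fin n → Fin k → Bool), (Y.card : ℝ) ≤ 2 ^ (γ * n) ∧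
          ({w : Fin n → Bool | ¬ (List.ofFn w ∈ L ↔
            ∃ y ∈ Y, (List.ofFn fun i => (w i, y i)) ∈ R)}.ncard : ℝ) ≤ 2 ^ (δ * n) :=
  LSC.incl_iff_cov hγ hδ hγδ h₁ h₂

end Pool.Agent.Results.MP_b7da94_lc.FewEasySets
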