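import Mathlib

/-!
# H69C/Hash: a pairwise independent family of subsets of `{0, ..., p - 1}`
-/

set_option autoImplicit false

namespace LSA

open Finset

variable {p : ℕ}

theorem card_val_lt [NeZero p] {z : ℕ} (hz : z ≤ p) :
    ((univ : Finset (ZMod p)).filter fun a => a.val < z).card = z := by
  have h : ((univ : Finset (ZMod p)).filter fun a => a.val < z).image ZMod.val = range z := by
    ext y
    simp only [mem_image, mem_filter, mem_univ, true_and, mem_range]
    constructor
    · rintro ⟨a, h1, rfl⟩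
      exact h1
    · intro hy
      refine ⟨(y : ZMod p), ?_, ?_⟩
      · rw [ZMod.val_natCast, Nat.mod_eq_of_lt (by omega)]
        exact hy
      · rw [ZMod.val_natCast, Nat.mod_eq_of_lt (by omega)]
  rw [← card_image_of_injective _ (ZMod.val_injective p), h, card_range]

theorem card_one [Fact p.Prime] {z : ℕ} (hz : z ≤ p) (x : ZMod p) :
    ((univ : Finset (ZMod p × ZMod p)).filter fun q => (q.1 * x + q.2).val < z).card = p * z := by
  have h : ((univ : Finset (ZMod p × ZMod p)).filter fun q => (q.1 * x + q.2).val < z).card =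
      ((univ : Finset (ZMod p)) ×ˢ ((univ : Finset (ZMod p)).filter fun a => a.val < z)).card := by
    refine card_nbij' (fun q => (q.1, q.1 * x + q.2)) (fun q => (q.1, q.2 - q.1 * x)) ?_ ?_ ?_ ?_
    · intro q hq
      simpa using hq
    · intro q hq
      simp only [coe_product, coe_univ, coe_filter, mem_univ, true_and, Set.mem_prod,
        Set.mem_univ, Set.mem_ofPred_eq] at hq ⊢
      simpa using hq
    · intro q _
      simp
    · intro q _
      simp
  rw [h, card_product, card_val_lt hz, card_univ, ZMod.card]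

theorem card_two [Fact p.Prime] {z : ℕ} (hz : z ≤ p) {x f : ZMod p} (hxf : x ≠ f) :
    ((univ : Finset (ZMod p × ZMod p)).filter fun q =>
      (q.1 * x + q.2).val < z ∧ (q.1 * f + q.2).val < z).card = z * z := by
  have hne : x - f ≠ 0 := sub_ne_zero.2 hxf
  have h : ((univ : Finset (ZMod p × ZMod p)).filter fun q =>
      (q.1 * x + q.2).val < z ∧ (q.1 * f + q.2).val < z).card =
      (((univ : Finset (ZMod p)).filter fun a => a.val < z) ×ˢ
        ((univ : Finset (ZMod p)).filter fun a => a.val < z)).card := by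
    refine card_nbij' (fun q => (q.1 * x + q.2, q.1 * f + q.2))
      (fun q => ((q.1 - q.2) * (x - f)⁻¹, q.1 - (q.1 - q.2) * (x - f)⁻¹ * x)) ?_ ?_ ?_ ?_
    · intro q hq
      simpa using hq
    · intro q hq
      simp only [coe_product, coe_filter, mem_univ, true_and, Set.mem_prod,
        Set.mem_ofPred_eq] at hq ⊢
      have e1 : (q.1 - q.2) * (x - f)⁻¹ * x + (q.1 - (q.1 - q.2) * (x - f)⁻¹ * x) = q.1 := by ring
      have e2 : (q.1 - q.2) * (x - f)⁻¹ * f + (q.1 - (q.1 - q.2) * (x - f)⁻¹ * x) = q.2 := by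
        have : (q.1 - q.2) * (x - f)⁻¹ * f + (q.1 - (q.1 - q.2) * (x - f)⁻¹ * x) =
          q.1 - (q.1 - q.2) * ((x - f)⁻¹ * (x - f)) := by ring
        rw [this, inv_mul_cancel₀ hne]
        ring
      rw [e1, e2]
      exact hq
    · intro q _
      simp only
      have e1 : (q.1 * x + q.2 - (q.1 * f + q.2)) * (x - f)⁻¹ = q.1 := by
        have : (q.1 * x + q.2 - (q.1 * f + q.2)) * (x - f)⁻¹ = q.1 * ((x - f) * (x - f)⁻¹) := by
          ring
        rw [this, mul_inv_cancel₀ hne, mul_one]
      rw [e1]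
      ext
      · rfl
      · simp
    · intro q _
      simp only
      have e1 : (q.1 - q.2) * (x - f)⁻¹ * x + (q.1 - (q.1 - q.2) * (x - f)⁻¹ * x) = q.1 := by ring
      have e2 : (q.1 - q.2) * (x - f)⁻¹ * f + (q.1 - (q.1 - q.2) * (x - f)⁻¹ * x) = q.2 := by
        have : (q.1 - q.2) * (x - f)⁻¹ * f + (q.1 - (q.1 - q.2) * (x - f)⁻¹ * x) =
          q.1 - (q.1 - q.2) * ((x - f)⁻¹ * (x - f)) := by ring
        rw [this, inv_mul_cancel₀ hne]
        ring
      rw [e1, e2]
  rw [h, card_product, card_val_lt hz]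

/-- a set of the family which misses `E` and contains `T` elements of `A` -/
theorem exists_hash (hp : p.Prime) {A E : Finset ℕ} (hA : A ⊆ range p) (hE : E ⊆ range p)
    (hd : Disjoint A E) {T : ℕ} (hT : 0 < T) (h : 8 * T * (E.card + 1) ≤ A.card) :
    ∃ u < p, ∃ v < p, ∃ z ≤ p, (∀ x ∈ E, ¬ (u * x + v) % p < z) ∧
      T ≤ (A.filter fun x => (u * x + v) % p < z).card := by
  classical
  have : Fact p.Prime := ⟨hp⟩
  set e := E.card with he
  have hAp : A.card ≤ p := by
    have := card_le_card hA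
    rwa [card_range] at this
  set z := p / (2 * (e + 1)) with hz
  have hzp : z ≤ p := Nat.div_le_self _ _
  have h1 : 2 * (e + 1) * z ≤ p := Nat.mul_div_le _ _
  have h2 : p < 2 * (e + 1) * (z + 1) := by
    have := Nat.lt_mul_div_succ p (show 0 < 2 * (e + 1) by omega)
    exact this
  have hp8 : 8 * (e + 1) ≤ p := by
    have : 8 * 1 * (e + 1) ≤ 8 * T * (e + 1) := by
      refine Nat.mul_le_mul_right _ (by omega)
    omega
  -- the indicator
  set I : ZMod p × ZMod p → ℕ → ℤ := fun q x => if (q.1 * x + q.2).val < z then 1 else 0 with hI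
  have hI1 : ∀ x : ℕ, ∑ q, I q x = p * z := by
    intro x
    have := card_one (p := p) hzp (x : ZMod p)
    rw [hI]
    simp only
    rw [Finset.sum_boole]
    exact_mod_cast this
  have hI2 : ∀ x < p, ∀ f < p, x ≠ f → ∑ q, I q x * I q f = z * z := by
    intro x hx f hf hxf
    have hne : (x : ZMod p) ≠ (f : ZMod p) := by
      intro h
      have h1 := (ZMod.natCast_eq_natCast_iff' _ _ _).1 h
      rw [Nat.mod_eq_of_lt hx, Nat.mod_eq_of_lt hf] at h1
      exact hxf h1
    have := card_two (p := p) hzp hne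
    rw [hI]
    simp only
    have h3 : ∀ q : ZMod p × ZMod p, ((if (q.1 * x + q.2).val < z then 1 else 0 : ℤ) *
        if (q.1 * f + q.2).val < z then 1 else 0) =
        if (q.1 * x + q.2).val < z ∧ (q.1 * f + q.2).val < z then 1 else 0 := by
      intro q
      by_cases ha : (q.1 * x + q.2).val < z <;> by_cases hb : (q.1 * f + q.2).val < z <;>
        simp [ha, hb]
    rw [Finset.sum_congr rfl fun q _ => h3 q, Finset.sum_boole]
    exact_mod_cast this
  have hsum : ∑ q, ∑ x ∈ A, I q x * (1 - ∑ f ∈ E, I q f) = A.card * (z * (p - e * z) : ℤ) := by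
    rw [Finset.sum_comm]
    have h3 : ∀ x ∈ A, ∑ q, I q x * (1 - ∑ f ∈ E, I q f) = z * (p - e * z) := by
      intro x hx
      have hxp := mem_range.1 (hA hx)
      have h4 : ∀ q, I q x * (1 - ∑ f ∈ E, I q f) = I q x - ∑ f ∈ E, I q x * I q f := by
        intro q
        rw [mul_sub, mul_one, Finset.mul_sum]
      rw [Finset.sum_congr rfl fun q _ => h4 q, Finset.sum_sub_distrib, hI1, Finset.sum_comm]
      have h5 : ∀ f ∈ E, ∑ q, I q x * I q f = z * z := by
        intro f hf
        refine hI2 x hxp f (mem_range.1 (hE hf)) ?_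
        rintro rfl
        exact (Finset.disjoint_left.1 hd hx) hf
      rw [Finset.sum_congr rfl h5, Finset.sum_const, nsmul_eq_mul]
      ring
    rw [Finset.sum_congr rfl h3, Finset.sum_const, nsmul_eq_mul]
  -- a good pair
  have hbig : ((univ : Finset (ZMod p × ZMod p)).card : ℤ) * (T - 1) <
      ∑ q, ∑ x ∈ A, I q x * (1 - ∑ f ∈ E, I q f) := by
    rw [hsum, card_univ, Fintype.card_prod, ZMod.card]
    have e1 : (2 * e * z : ℤ) ≤ p := by
      have : 2 * e * z ≤ 2 * (e + 1) * z := by nlinarith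
      exact_mod_cast this.trans h1
    have e2 : (2 * p : ℤ) * T ≤ A.card * z := by
      have e3 : 2 * p * T ≤ A.card * z := by
        have e4 : 8 * T * (e + 1) * z ≤ A.card * z := Nat.mul_le_mul_right _ h
        have e5 : p ≤ 2 * (2 * (e + 1) * z) := by
          have : 2 * (e + 1) * (z + 1) = 2 * (e + 1) * z + 2 * (e + 1) := by ring
          omega
        have e6 : 2 * p * T ≤ 2 * (2 * (2 * (e + 1) * z)) * T :=
          Nat.mul_le_mul_right _ (Nat.mul_le_mul_left _ e5)
        have e7 : 2 * (2 * (2 * (e + 1) * z)) * T = 8 * T * (e + 1) * z := by ring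
        omega
      exact_mod_cast e3
    have e8 : (0 : ℤ) < p := by exact_mod_cast hp.pos
    have e9 : (0 : ℤ) < T := by exact_mod_cast hT
    have e10 : (p : ℤ) ≤ 2 * (p - e * z) := by linarith
    have e11 : (p : ℤ) * p * T ≤ A.card * (z * (p - e * z)) := by
      have h7 : (2 * p : ℤ) * T * (p - e * z) ≤ A.card * z * (p - e * z) :=
        mul_le_mul_of_nonneg_right e2 (by linarith)
      have h8 : (p : ℤ) * T * p ≤ (p : ℤ) * T * (2 * (p - e * z)) :=
        mul_le_mul_of_nonneg_left e10 (by positivity)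
      nlinarith
    push_cast
    nlinarith
  have hex : ∃ q ∈ (univ : Finset (ZMod p × ZMod p)),
      ((T : ℤ) - 1) < ∑ x ∈ A, I q x * (1 - ∑ f ∈ E, I q f) := by
    by_contra hcon
    push Not at hcon
    have := Finset.sum_le_sum hcon
    rw [Finset.sum_const, nsmul_eq_mul] at this
    linarith
  obtain ⟨q, -, hq⟩ := hex
  have hval : ∀ x : ℕ, (q.1 * x + q.2).val = (q.1.val * x + q.2.val) % p := by
    intro x
    have : (q.1 * x + q.2 : ZMod p) = ((q.1.val * x + q.2.val : ℕ) : ZMod p) := by
      push_cast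
      rw [ZMod.natCast_zmod_val, ZMod.natCast_zmod_val]
    rw [this, ZMod.val_natCast]
  refine ⟨q.1.val, ZMod.val_lt _, q.2.val, ZMod.val_lt _, z, hzp, ?_⟩
  have hI0 : ∀ x, 0 ≤ I q x := by
    intro x
    rw [hI]
    simp only
    split_ifs <;> norm_num
  have hno : ∀ x ∈ E, ¬ (q.1.val * x + q.2.val) % p < z := by
    intro x hx hlt
    have h3 : 1 ≤ ∑ f ∈ E, I q f := by
      have h4 : I q x = 1 := by
        rw [hI]
        simp only
        rw [if_pos (by rw [hval]; exact hlt)]
      rw [← h4]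
      exact Finset.single_le_sum (f := fun f => I q f) (fun f _ => hI0 f) hx
    have h5 : ∑ x ∈ A, I q x * (1 - ∑ f ∈ E, I q f) ≤ 0 :=
      Finset.sum_nonpos fun x _ => mul_nonpos_of_nonneg_of_nonpos (hI0 x) (by linarith)
    have : (0 : ℤ) ≤ (T : ℤ) - 1 := by
      have : (1 : ℤ) ≤ T := by exact_mod_cast hT
      linarith
    linarith
  refine ⟨hno, ?_⟩
  have h6 : ∑ f ∈ E, I q f = 0 := by
    refine Finset.sum_eq_zero fun f hf => ?_
    rw [hI]
    simp only
    rw [if_neg (by rw [hval]; exact hno f hf)]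
  rw [h6] at hq
  have h7 : ∑ x ∈ A, I q x * (1 - 0) = ((A.filter fun x => (q.1.val * x + q.2.val) % p < z).card : ℤ) := by
    rw [Finset.card_filter]
    push_cast
    refine Finset.sum_congr rfl fun x _ => ?_
    rw [hI]
    simp only [mul_one]
    rw [hval]
  rw [h7] at hq
  omega

end LSA
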