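import Pool.Agent.H69A.FnB
import Pool.Agent.H69A.Inv

/-!
# H69C/Lag: interpolation modulo a prime number, the nodes are given by a predicate
-/

set_option autoImplicit false

namespace LSA

open LSC

open Classical in
/-- the value at `x` of the polynomial modulo `p` with the values `w j` at the nodes `j < n` with `S j` -/
noncomputable def lag (p n : ℕ) (S : ℕ → Prop) (w : ℕ → ℕ) (x : ℕ) : ℕ :=
  (∑ j ∈ Finset.range n, if S j then w j * ((∏ v ∈ Finset.range n,
    if S v ∧ v ≠ j then (x + (p - v)) * inv p (j + (p - v)) else 1) % p) else 0) % p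

theorem lag_lt {p : ℕ} (hp : 0 < p) (n : ℕ) (S : ℕ → Prop) (w : ℕ → ℕ) (x : ℕ) :
    lag p n S w x < p := Nat.mod_lt _ hp

open Classical in
theorem cast_lag {p : ℕ} [Fact p.Prime] {n : ℕ} (hn : n ≤ p) (S : ℕ → Prop) (w : ℕ → ℕ) (x : ℕ) :
    ((lag p n S w x : ℕ) : ZMod p) = Polynomial.eval ((x : ℕ) : ZMod p)
      (Lagrange.interpolate ((Finset.range n).filter S) (fun i : ℕ => (i : ZMod p))
        (fun i => ((w i : ℕ) : ZMod p))) := by
  have hcast : ∀ v : ℕ, v < p → ((p - v : ℕ) : ZMod p) = - (v : ZMod p) := by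
    intro v hv
    rw [Nat.cast_sub hv.le, ZMod.natCast_self, zero_sub]
  unfold lag
  rw [ZMod.natCast_mod, Nat.cast_sum, Lagrange.interpolate_apply, Polynomial.eval_finsetSum,
    Finset.sum_filter]
  refine Finset.sum_congr rfl fun j hj => ?_
  rw [Finset.mem_range] at hj
  by_cases hS : S j
  · rw [if_pos hS, if_pos hS, Nat.cast_mul, ZMod.natCast_mod, Polynomial.eval_mul,
      Polynomial.eval_C, Lagrange.basis, Polynomial.eval_prod, Nat.cast_prod]
    congr 1
    have h1 : ((Finset.range n).filter S).erase j =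
        (Finset.range n).filter fun v => S v ∧ v ≠ j := by
      ext v
      simp only [Finset.mem_erase, Finset.mem_filter]
      tauto
    rw [h1, Finset.prod_filter]
    refine Finset.prod_congr rfl fun v hv => ?_
    rw [Finset.mem_range] at hv
    by_cases h2 : S v ∧ v ≠ j
    · rw [if_pos h2, if_pos h2, Lagrange.basisDivisor]
      have hvp : v < p := by omega
      have hjp : j < p := by omega
      have hdvd : ¬ p ∣ j + (p - v) := by
        intro h
        rcases lt_or_gt_of_ne h2.2 with h1 | h1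
        · have h2 : p ∣ j - v := by
            have h3 : j + (p - v) = (j - v) + p := by omega
            rw [h3] at h
            exact (Nat.dvd_add_left (dvd_refl p)).1 h
          have := Nat.le_of_dvd (by omega) h2
          omega
        · have := Nat.le_of_dvd (by omega) h
          omega
      rw [Nat.cast_mul, cast_inv hdvd, Nat.cast_add, Nat.cast_add, hcast v hvp]
      simp only [Polynomial.eval_mul, Polynomial.eval_C, Polynomial.eval_sub, Polynomial.eval_X]
      rw [← sub_eq_add_neg, ← sub_eq_add_neg, mul_comm]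
    · rw [if_neg h2, if_neg h2, Nat.cast_one]
  · rw [if_neg hS, if_neg hS, Nat.cast_zero]

open Classical in
/-- the polynomial of degree less than `T` is determined by its values at `T` nodes or more -/
theorem lag_lag_aux {p T : ℕ} (hp : p.Prime) (hT : T ≤ p) {F : ℕ → ℕ} (hF : ∀ t < T, F t < p)
    {S S0 : ℕ → Prop} (hS0 : ∀ j, S0 j) {w : ℕ → ℕ}
    (hS : T ≤ ((Finset.range p).filter S).card)
    (hw : ∀ j < p, S j → w j = lag p T S0 F j) {t : ℕ} (ht : t < T) :
    lag p p S w t = F t := by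
  have : Fact p.Prime := ⟨hp⟩
  have hinj : ∀ n ≤ p, ∀ S : ℕ → Prop,
      Set.InjOn (fun i : ℕ => (i : ZMod p)) ((Finset.range n).filter S : Finset ℕ) := by
    intro n hn S i hi j hj hij
    rw [Finset.mem_coe, Finset.mem_filter, Finset.mem_range] at hi hj
    have h1 := (ZMod.natCast_eq_natCast_iff' _ _ _).1 hij
    rwa [Nat.mod_eq_of_lt (by omega), Nat.mod_eq_of_lt (by omega)] at h1
  have hcard : ((Finset.range T).filter S0).card = T := by
    rw [Finset.filter_true_of_mem fun j _ => hS0 j, Finset.card_range]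
  set P := Lagrange.interpolate ((Finset.range T).filter S0)
    (fun i : ℕ => (i : ZMod p)) (fun i => ((F i : ℕ) : ZMod p)) with hP
  have hdeg : P.degree < T := by
    have := Lagrange.degree_interpolate_lt (fun i => ((F i : ℕ) : ZMod p)) (hinj T hT S0)
    rwa [hcard] at this
  have hval : ∀ x : ℕ, ((lag p T S0 F x : ℕ) : ZMod p) = P.eval ((x : ℕ) : ZMod p) :=
    fun x => cast_lag hT _ _ _
  have hint : P = Lagrange.interpolate ((Finset.range p).filter S) (fun i : ℕ => (i : ZMod p))
      (fun i => ((w i : ℕ) : ZMod p)) := by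
    refine Lagrange.eq_interpolate_of_eval_eq _ (hinj p le_rfl S) ?_ ?_
    · exact lt_of_lt_of_le hdeg (by exact_mod_cast hS)
    · intro i hi
      rw [Finset.mem_filter, Finset.mem_range] at hi
      rw [hw i hi.1 hi.2, hval]
  have h1 : ((lag p p S w t : ℕ) : ZMod p) = ((F t : ℕ) : ZMod p) := by
    rw [cast_lag le_rfl, ← hint, hP]
    exact Lagrange.eval_interpolate_at_node (v := fun i : ℕ => (i : ZMod p)) _
      (hinj T hT S0) (Finset.mem_filter.2 ⟨Finset.mem_range.2 ht, hS0 t⟩)
  have h2 := (ZMod.natCast_eq_natCast_iff' _ _ _).1 h1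
  rwa [Nat.mod_eq_of_lt (lag_lt hp.pos _ _ _ _), Nat.mod_eq_of_lt (hF t ht)] at h2

open Classical in
/-- the polynomial of degree less than `T` is determined by its values at `T` nodes or more -/
theorem lag_lag {p T : ℕ} (hp : p.Prime) (hT : T ≤ p) {F : ℕ → ℕ} (hF : ∀ t < T, F t < p)
    {S : ℕ → Prop} {w : ℕ → ℕ} (hS : T ≤ ((Finset.range p).filter S).card)
    (hw : ∀ j < p, S j → w j = lag p T (fun _ => True) F j) {t : ℕ} (ht : t < T) :
    lag p p S w t = F t :=
  lag_lag_aux hp hT hF (fun _ => trivial) hS hw ht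

variable {C : NClass} [Calc C] {α : Type} [Ctx α]

protected theorem Fn.lag {p n x : α → ℕ} {S : α → ℕ → Prop} {w : α → ℕ → ℕ} (hp : Fn C p)
    (hn : Fn C n) (hx : Fn C x) (hS : Pr C (fun q : α × ℕ => S q.1 q.2))
    (hw : Fn C (fun q : α × ℕ => w q.1 q.2)) (h0 : ∀ a, 0 < p a) :
    Fn C (fun a => lag (p a) (n a) (S a) (w a) (x a)) := by
  classical
  unfold lag
  refine LSC.Fn.mod ?_ hp
  refine LSC.Fn.sum (n := n) (f := fun a j => if S a j then w a j * ((∏ v ∈ Finset.range (n a),
    if S a v ∧ v ≠ j then (x a + (p a - v)) * inv (p a) (j + (p a - v)) else 1) % p a) else 0)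
    hn ?_
  refine LSC.Fn.ite hS (LSC.Fn.mul hw ?_) (LSC.Fn.const 0)
  have hp1 : Fn C (fun q : α × ℕ => p q.1) := hp.comp LSC.Fn.fst
  have hn1 : Fn C (fun q : α × ℕ => n q.1) := hn.comp LSC.Fn.fst
  refine Fn.prodmod (α := α × ℕ) (n := fun q => n q.1)
    (f := fun q v => if S q.1 v ∧ v ≠ q.2 then (x q.1 + (p q.1 - v)) * inv (p q.1)
      (q.2 + (p q.1 - v)) else 1) (m := fun q => p q.1) hn1 ?_ hp1 (fun q => h0 q.1)
  have hS2 : Pr C (fun q : (α × ℕ) × ℕ => S q.1.1 q.2) :=
    hS.comp (f := fun q : (α × ℕ) × ℕ => (q.1.1, q.2)) (by fun_prop)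
  have hx2 : Fn C (fun q : (α × ℕ) × ℕ => x q.1.1) :=
    hx.comp (f := fun q : (α × ℕ) × ℕ => q.1.1) (by fun_prop)
  have hp2 : Fn C (fun q : (α × ℕ) × ℕ => p q.1.1) :=
    hp.comp (f := fun q : (α × ℕ) × ℕ => q.1.1) (by fun_prop)
  have hne : Pr C (fun q : (α × ℕ) × ℕ => q.2 ≠ q.1.2) :=
    Pr.not (Pr.eq (by fun_prop) (by fun_prop))
  refine LSC.Fn.ite (hS2.and hne) ?_ (LSC.Fn.const 1)
  fun_prop

end LSA
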