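import Pool.Agent.H85P.Avg
import Pool.Agent.H69C.Core

/-!
# H69C/Mach: unions of few sets with few exceptions, the machine version
-/

set_option autoImplicit false

namespace LSC

open H85L LSP LSA

/-- The machine version: every language of the kind `κ₂` is, on the words of length `n` and up to at most
`2 ^ (δ n)` exceptions, the union of at most `2 ^ (γ n)` sections of one language of the kind `κ₁`. -/
def MCov (γ δ : ℝ) (κ₂ κ₁ : Kind) : Prop :=
  ∀ L : Set (List Bool), LinClass κ₂ L →
    ∃ (k : ℕ) (R : Set (List (Bool × (Fin k → Bool)))) (n0 : ℕ), LinClass κ₁ R ∧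
      ∀ n ≥ n0, ∃ Y : Finset (Fin n → Fin k → Bool), (Y.card : ℝ) ≤ 2 ^ (γ * n) ∧
        ({w : Fin n → Bool | ¬ (List.ofFn w ∈ L ↔
          ∃ y ∈ Y, (List.ofFn fun i => (w i, y i)) ∈ R)}.ncard : ℝ) ≤ 2 ^ (δ * n)

theorem cov_of_mach {γ δ : ℝ} {κ₁ κ₂ : Kind} (h₁ : κ₁.det = true ∨ κ₁.time = false)
    (h : MCov γ δ κ₂ κ₁) : CovIncl γ δ (KC κ₁) (KC κ₂) := by
  classical
  intro P hP
  obtain ⟨k, R, n0, hR, hgood⟩ := h _ (lin_nw hP)
  have hQ' : Pr (KC κ₁) (fun p : ℕ × ℕ => (dec (st (w2 k p.1 p.2)) : List _) ∈ R) :=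
    (lin_pr h₁ hR).comp (fn_w2 k)
  refine ⟨fun p => (dec (st (w2 k p.1 p.2)) : List _) ∈ R, k, n0, hQ', fun n hn => ?_⟩
  obtain ⟨Y, hY1, hY2⟩ := hgood n hn
  refine ⟨Y.image fun y => advN k n y, ?_, ?_, ?_⟩
  · refine le_trans ?_ hY1
    exact_mod_cast Finset.card_image_le
  · intro y hy
    obtain ⟨z, -, rfl⟩ := Finset.mem_image.1 hy
    rw [Nat.size_le]
    refine (ofBits_lt _ _).trans_le (Nat.pow_le_pow_right (by norm_num) ?_)
    nlinarith
  · refine le_trans ?_ hY2
    have hle : ((Finset.range (2 ^ n)).filter fun x => ¬ (P (2 ^ n + x) ↔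
        ∃ y ∈ Y.image (fun y => advN k n y),
          (dec (st (w2 k (2 ^ n + x) y)) : List _) ∈ R)).card ≤
        {w : Fin n → Bool | ¬ (List.ofFn w ∈ {w | P (nw w)} ↔
          ∃ y ∈ Y, (List.ofFn fun i => (w i, y i)) ∈ R)}.ncard := by
      rw [← Set.ncard_coe_finset]
      refine Set.ncard_le_ncard_of_injOn (fun x (i : Fin n) => decide (bt x i = 1)) ?_ ?_
        (Set.toFinite _)
      · intro x hx
        rw [Finset.mem_coe, Finset.mem_filter, Finset.mem_range] at hx
        obtain ⟨hx, hne⟩ := hx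
        intro hiff
        apply hne
        have e1 : nw (List.ofFn fun i : Fin n => decide (bt x i = 1)) = 2 ^ n + x := by
          unfold nw
          rw [nb_bits n x hx, List.length_ofFn]
        have e2 : ∀ y : Fin n → Fin k → Bool, w2 k (2 ^ n + x) (advN k n y) =
            List.ofFn fun i : Fin n => (decide (bt x i = 1), y i) := by
          intro y
          unfold w2
          have e3 : Nat.size (2 ^ n + x) - 1 = n := by rw [size_add_pow hx]; rfl
          rw [e3]
          congr 1
          funext i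
          unfold lt2
          rw [bt_add i.2]
          congr 1
          funext j
          have := bt_advN k n y i j
          cases hadv : y i j with
          | true => simp [this.mpr hadv]
          | false =>
            have h3 : ¬ bt (advN k n y) (i * k + j) = 1 := fun h4 => by
              rw [this.mp h4] at hadv
              exact absurd hadv (by simp)
            simp [h3]
        have h3 : P (nw (List.ofFn fun i : Fin n => decide (bt x i = 1))) ↔
            ∃ y ∈ Y, (List.ofFn fun i => (decide (bt x i = 1), y i)) ∈ R := hiff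
        rw [e1] at h3
        rw [h3]
        constructor
        · rintro ⟨y, hy, hyR⟩
          refine ⟨advN k n y, Finset.mem_image_of_mem _ hy, ?_⟩
          rw [dec_st, e2]
          exact hyR
        · rintro ⟨z, hz, hzR⟩
          obtain ⟨y, hy, rfl⟩ := Finset.mem_image.1 hz
          refine ⟨y, hy, ?_⟩
          rw [dec_st, e2] at hzR
          exact hzR
      · intro x hx y hy hxy
        rw [Finset.mem_coe, Finset.mem_filter, Finset.mem_range] at hx hy
        have h3 := congrArg (fun w => nb (List.ofFn w)) hxy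
        simp only at h3
        rwa [nb_bits n x hx.1, nb_bits n y hy.1] at h3
    exact_mod_cast hle

theorem cov_of_incl {γ δ : ℝ} (hγ : 0 ≤ γ) {κ₁ κ₂ : Kind} (h : LinIncl κ₂ κ₁) :
    MCov γ δ κ₂ κ₁ := by
  intro L hL
  refine ⟨0, {w | w.map Prod.fst ∈ L}, 0, lin_map _ (h Bool inferInstance L hL), fun n _ =>
    ⟨{fun _ j => j.elim0}, ?_, ?_⟩⟩
  · rw [Finset.card_singleton, Nat.cast_one]
    exact Real.one_le_rpow (by norm_num) (by positivity)
  · have h1 : ∀ (w : Fin n → Bool) (y : Fin n → Fin 0 → Bool),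
        (List.ofFn fun i => (w i, y i)).map Prod.fst = List.ofFn w := by
      intro w y
      rw [List.map_ofFn]
      rfl
    have h2 : {w : Fin n → Bool | ¬ (List.ofFn w ∈ L ↔
        ∃ y ∈ ({fun _ j => j.elim0} : Finset (Fin n → Fin 0 → Bool)),
          (List.ofFn fun i => (w i, y i)) ∈ {w : List (Bool × (Fin 0 → Bool)) |
            w.map Prod.fst ∈ L})} = ∅ := by
      rw [Set.eq_empty_iff_forall_notMem]
      intro w hne
      apply hne
      constructor
      · intro hw
        refine ⟨fun _ j => j.elim0, Finset.mem_singleton_self _, ?_⟩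
        show (List.ofFn fun i => (w i, _)).map Prod.fst ∈ L
        rw [h1]
        exact hw
      · rintro ⟨y, -, hy⟩
        have hy' : (List.ofFn fun i => (w i, y i)).map Prod.fst ∈ L := hy
        rwa [h1] at hy'
    rw [h2, Set.ncard_empty, Nat.cast_zero]
    positivity

theorem incl_iff_cov {γ δ : ℝ} (hγ : 0 ≤ γ) (hδ : 0 ≤ δ) (hγδ : 2 * γ + δ < 1) {κ₁ κ₂ : Kind}
    (h₁ : κ₁.det = true ∨ κ₁.time = false) (h₂ : κ₂.det = true ∨ κ₂.time = false) :
    LinIncl κ₂ κ₁ ↔ MCov γ δ κ₂ κ₁ := by
  constructor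
  · exact cov_of_incl hγ
  · intro h Δ _ L hL
    exact (lin_iff h₁).mpr (core3 (locChk h₂) hγ hδ hγδ (cov_of_mach h₁ h) _ (lin_pr h₂ hL))

end LSC
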