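import Mathlib

/-!
# H69C/Pick: one of the sets contains many points of the graph and few other points, for some padding
-/

set_option autoImplicit false

namespace LSA

open Finset

/-- `Rl y r x z`: the word `(x, z)` with the padding `r` belongs to the set number `y`; `Exc` is the set of
the exceptions -/
theorem exists_pick {p R : ℕ} {g : ℕ → ℕ} (hg : ∀ x < p, g x < p) {W : Finset ℕ}
    {Rl : ℕ → ℕ → ℕ → ℕ → Prop} {e T : ℕ} {Exc : Finset (ℕ × ℕ × ℕ)} (hE : Exc.card ≤ e)
    (hex : ∀ r < R, ∀ x < p, ∀ z < p, (x, z, r) ∉ Exc → ((∃ y ∈ W, Rl y r x z) ↔ g x = z))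
    (hT : 0 < T) (h : e + W.card * (9 * T * (e + R)) < p * R) :
    ∃ y ∈ W, ∃ r < R, ∃ A E : Finset ℕ, A ⊆ range p ∧ E ⊆ range p ∧ Disjoint A E ∧
      8 * T * (E.card + 1) ≤ A.card ∧ (∀ x ∈ A, Rl y r x (g x)) ∧
      ∀ x < p, x ∉ E → ∀ z < p, Rl y r x z → z = g x := by
  classical
  by_contra hcon
  -- the points of the graph and the other points
  set G : ℕ → ℕ → Finset ℕ := fun y r => (range p).filter fun x => Rl y r x (g x) with hG
  set B : ℕ → ℕ → Finset ℕ := fun y r =>
    (range p).filter fun x => ∃ z < p, z ≠ g x ∧ Rl y r x z with hB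
  have h1 : ∀ y ∈ W, ∀ r < R, (G y r).card ≤ 9 * T * ((B y r).card + 1) := by
    intro y hy r hr
    by_contra h2
    push Not at h2
    apply hcon
    refine ⟨y, hy, r, hr, G y r \ B y r, B y r, ?_, filter_subset _ _, sdiff_disjoint, ?_, ?_, ?_⟩
    · exact sdiff_subset.trans (filter_subset _ _)
    · have h3 : (G y r).card ≤ (G y r \ B y r).card + (B y r).card := by
        have := card_le_card (show G y r ⊆ (G y r \ B y r) ∪ B y r by
          intro x hx
          by_cases hxB : x ∈ B y r
          · exact mem_union_right _ hxB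
          · exact mem_union_left _ (mem_sdiff.2 ⟨hx, hxB⟩))
        exact this.trans (card_union_le _ _)
      have h4 : 9 * T * ((B y r).card + 1) = 8 * T * ((B y r).card + 1) + T * ((B y r).card + 1) := by
        ring
      have h5 : (B y r).card + 1 ≤ T * ((B y r).card + 1) := Nat.le_mul_of_pos_left _ hT
      omega
    · intro x hx
      exact (mem_filter.1 (mem_sdiff.1 hx).1).2
    · intro x hx hxB z hz hR
      by_contra hne
      exact hxB (mem_filter.2 ⟨mem_range.2 hx, z, hz, hne, hR⟩)
  -- few other points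
  have h2 : ∀ y ∈ W, ∑ r ∈ range R, (B y r).card ≤ e := by
    intro y hy
    refine le_trans ?_ hE
    rw [← card_sigma (range R) (fun r => B y r)]
    have hch : ∀ q : (_ : ℕ) × ℕ, ∃ z, q ∈ (range R).sigma (fun r => B y r) →
        z < p ∧ z ≠ g q.2 ∧ Rl y q.1 q.2 z := by
      intro q
      by_cases hq : q ∈ (range R).sigma (fun r => B y r)
      · obtain ⟨z, hz⟩ := (mem_filter.1 (mem_sigma.1 hq).2).2
        exact ⟨z, fun _ => hz⟩
      · exact ⟨0, fun h => absurd h hq⟩
    choose z hz using hch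
    refine card_le_card_of_injOn (fun q => (q.2, z q, q.1)) ?_ ?_
    · intro q hq
      have hq' := hz q hq
      obtain ⟨hq1, hq2⟩ := mem_sigma.1 hq
      by_contra hne
      have h3 := hex q.1 (mem_range.1 hq1) q.2 (mem_range.1 (mem_filter.1 hq2).1) (z q) hq'.1 hne
      exact hq'.2.1 (h3.1 ⟨y, hy, hq'.2.2⟩).symm
    · rintro ⟨a, b⟩ - ⟨c, d⟩ - hqq
      simp only [Prod.mk.injEq] at hqq
      obtain ⟨h5, -, h6⟩ := hqq
      subst h5 h6
      rfl
  -- many points of the graph
  have h3 : p * R ≤ e + ∑ y ∈ W, ∑ r ∈ range R, (G y r).card := by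
    have h4 : ((range p) ×ˢ (range R)).card ≤
        (Exc ∪ ((W.sigma fun y => (range R).sigma fun r => G y r).image
          fun q => (q.2.2, g q.2.2, q.2.1))).card := by
      refine card_le_card_of_injOn (fun q => (q.1, g q.1, q.2)) ?_ ?_
      · rintro ⟨x, r⟩ hq
        rw [mem_coe, mem_product, mem_range, mem_range] at hq
        rw [mem_coe, mem_union]
        by_cases hxE : (x, g x, r) ∈ Exc
        · exact Or.inl hxE
        · right
          obtain ⟨y, hy, hR⟩ := (hex r hq.2 x hq.1 (g x) (hg x hq.1) hxE).2 rfl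
          refine mem_image.2 ⟨⟨y, r, x⟩, ?_, rfl⟩
          exact mem_sigma.2 ⟨hy, mem_sigma.2 ⟨mem_range.2 hq.2,
            mem_filter.2 ⟨mem_range.2 hq.1, hR⟩⟩⟩
      · rintro ⟨a, b⟩ - ⟨c, d⟩ - hqq
        simp only [Prod.mk.injEq] at hqq
        obtain ⟨h5, -, h6⟩ := hqq
        subst h5 h6
        rfl
    rw [card_product, card_range, card_range] at h4
    refine h4.trans ((card_union_le _ _).trans (Nat.add_le_add hE (card_image_le.trans ?_)))
    rw [card_sigma]
    refine Finset.sum_le_sum fun y _ => ?_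
    rw [card_sigma]
  have h4 : ∑ y ∈ W, ∑ r ∈ range R, (G y r).card ≤ W.card * (9 * T * (e + R)) := by
    rw [← smul_eq_mul]
    refine Finset.sum_le_card_nsmul _ _ _ fun y hy => ?_
    calc ∑ r ∈ range R, (G y r).card ≤ ∑ r ∈ range R, 9 * T * ((B y r).card + 1) :=
          Finset.sum_le_sum fun r hr => h1 y hy r (mem_range.1 hr)
      _ = 9 * T * (∑ r ∈ range R, (B y r).card + R) := by
          rw [← Finset.mul_sum, Finset.sum_add_distrib, Finset.sum_const, card_range, smul_eq_mul,
            mul_one]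
      _ ≤ 9 * T * (e + R) := Nat.mul_le_mul_left _ (Nat.add_le_add_right (h2 y hy) _)
  omega

end LSA
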