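import Pool.Agent.H69C.Lag
import Pool.Agent.H69C.Hash
import Pool.Agent.H69C.Pick

/-!
# H69C/Core: unions of `2 ^ (γ n)` sets up to `2 ^ (δ n)` exceptions, `2 γ + δ < 1` (MP_b7da94_lc)

Let `P` be a predicate of the class `D` and `F` its table (`LocChk`). For a number `a < 2 ^ s` the values
`F (a, t)`, `t < 2 ^ (c * (s + 1))`, are the values at `t` of a polynomial modulo a prime number `p`. The
language consists of all `(a, r, x, y)` such that `y` is the value of this polynomial at `x`; `r` is a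
padding. If the words of length `n` in it are, up to few exceptions, the union of few sets, then for one
of these sets and one value of `r` the set contains `(a, r, x, y)` for many `x` which belong to a set of a
pairwise independent family, and it contains no wrong words for such `x` (`exists_pick`, `exists_hash`). So
the polynomial is computed from this set by interpolation (`lag_lag`).
-/

set_option autoImplicit false

namespace LSA

open LSC

/-- the number of bits of a number modulo the prime number -/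
def qm (K s : ℕ) : ℕ := K * (s + 1) + 2

/-- the length of the padding -/
def qr (J s : ℕ) : ℕ := J * (s + 1)

/-- the prime number -/
noncomputable def qp (K s : ℕ) : ℕ :=
  mu (2 ^ (K * (s + 1) + 1) + 1) fun i => 2 ^ (K * (s + 1)) ≤ i ∧ i.Prime

/-- the length of the words -/
def qn (K J s : ℕ) : ℕ := 2 * qm K s + qr J s + s

/-- the word `(a, r, x, y)` -/
def wd (K J s a x y r : ℕ) : ℕ :=
  2 ^ qn K J s + (x + 2 ^ qm K s * (y + 2 ^ qm K s * (r + 2 ^ qr J s * a)))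

/-- the parameter of the word `N` -/
noncomputable def sC (K J N : ℕ) : ℕ := mu (Nat.size N) fun s => qn K J s + 1 = Nat.size N

open Classical in
/-- the polynomial with the values of the table -/
noncomputable def pv (c K : ℕ) (F : ℕ × ℕ → Prop) (s a x : ℕ) : ℕ :=
  lag (qp K s) (2 ^ (c * (s + 1))) (fun _ => True) (fun t => if F (a, t) then 1 else 0) x

/-- the language -/
def LC (c K J : ℕ) (F : ℕ × ℕ → Prop) (N : ℕ) : Prop :=
  sC K J N < Nat.size N ∧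
    (N - 2 ^ qn K J (sC K J N)) % 2 ^ qm K (sC K J N) < qp K (sC K J N) ∧
    pv c K F (sC K J N) ((N - 2 ^ qn K J (sC K J N)) / 2 ^ qm K (sC K J N) / 2 ^ qm K (sC K J N) /
        2 ^ qr J (sC K J N))
      ((N - 2 ^ qn K J (sC K J N)) % 2 ^ qm K (sC K J N)) =
      (N - 2 ^ qn K J (sC K J N)) / 2 ^ qm K (sC K J N) % 2 ^ qm K (sC K J N)

open Classical in
/-- every predicate of the class `D` is, on the words of length `n` and up to at most `2 ^ (δ n)` exceptions,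
a union of at most `2 ^ (γ n)` predicates of the class `C` with linear advice -/
def CovIncl (γ δ : ℝ) (C D : NClass) : Prop := ∀ P : ℕ → Prop, Pr D P →
  ∃ (Q : ℕ × ℕ → Prop) (c n0 : ℕ), Pr C Q ∧ ∀ n ≥ n0, ∃ W : Finset ℕ,
    (W.card : ℝ) ≤ 2 ^ (γ * n) ∧ (∀ y ∈ W, Nat.size y ≤ c * (n + 1)) ∧
      (((Finset.range (2 ^ n)).filter fun x =>
        ¬ (P (2 ^ n + x) ↔ ∃ y ∈ W, Q (2 ^ n + x, y))).card : ℝ) ≤ 2 ^ (δ * n)

/-! ### Parameters -/

theorem qp_spec (K s : ℕ) : (qp K s).Prime ∧ 2 ^ (K * (s + 1)) ≤ qp K s ∧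
    qp K s < 2 ^ qm K s := by
  have h0 : 2 ^ (K * (s + 1)) ≠ 0 := by positivity
  obtain ⟨p, hp, h1, h2⟩ := Nat.exists_prime_lt_and_le_two_mul _ h0
  have h3 : 2 ^ (K * (s + 1) + 1) = 2 * 2 ^ (K * (s + 1)) := by rw [pow_succ]; ring
  have h4 : 2 ^ qm K s = 2 * 2 ^ (K * (s + 1) + 1) := by
    unfold qm
    rw [show K * (s + 1) + 2 = K * (s + 1) + 1 + 1 from rfl, pow_succ]; ring
  have hlt : qp K s < 2 ^ (K * (s + 1) + 1) + 1 := by
    unfold qp
    refine lt_of_le_of_lt ?_ (show p < 2 ^ (K * (s + 1) + 1) + 1 by omega)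
    by_contra hcon
    exact mu_min (not_le.1 hcon) ⟨h1.le, hp⟩
  have h5 := mu_spec (p := fun i => 2 ^ (K * (s + 1)) ≤ i ∧ i.Prime) hlt
  exact ⟨h5.2, h5.1, by unfold qp at *; omega⟩

theorem qn_inj {K J s s' : ℕ} (h : qn K J s = qn K J s') : s = s' := by
  unfold qn qm qr at h
  rcases Nat.lt_trichotomy s s' with h1 | h1 | h1
  · have : K * (s + 1) ≤ K * (s' + 1) := Nat.mul_le_mul_left _ (by omega)
    have : J * (s + 1) ≤ J * (s' + 1) := Nat.mul_le_mul_left _ (by omega)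
    omega
  · exact h1
  · have : K * (s' + 1) ≤ K * (s + 1) := Nat.mul_le_mul_left _ (by omega)
    have : J * (s' + 1) ≤ J * (s + 1) := Nat.mul_le_mul_left _ (by omega)
    omega

theorem digit_lt {b c x y : ℕ} (hx : x < 2 ^ b) (hy : y < 2 ^ c) : x + 2 ^ b * y < 2 ^ (b + c) := by
  have e : 2 ^ b * (y + 1) ≤ 2 ^ b * 2 ^ c := Nat.mul_le_mul_left _ hy
  rw [Nat.mul_add, Nat.mul_one] at e
  rw [pow_add]
  omega

theorem digit_mod {b x y : ℕ} (hx : x < 2 ^ b) : (x + 2 ^ b * y) % 2 ^ b = x := by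
  rw [Nat.add_mul_mod_self_left, Nat.mod_eq_of_lt hx]

theorem digit_div {b x y : ℕ} (hx : x < 2 ^ b) : (x + 2 ^ b * y) / 2 ^ b = y := by
  rw [Nat.add_mul_div_left _ _ (by positivity), Nat.div_eq_of_lt hx, zero_add]

theorem wd_lt {K J s a x y r : ℕ} (ha : a < 2 ^ s) (hx : x < 2 ^ qm K s) (hy : y < 2 ^ qm K s)
    (hr : r < 2 ^ qr J s) :
    x + 2 ^ qm K s * (y + 2 ^ qm K s * (r + 2 ^ qr J s * a)) < 2 ^ qn K J s := by
  have := digit_lt hx (digit_lt hy (digit_lt hr ha))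
  refine this.trans_le (Nat.pow_le_pow_right (by norm_num) ?_)
  unfold qn
  omega

theorem sC_wd {K J s a x y r : ℕ} (ha : a < 2 ^ s) (hx : x < 2 ^ qm K s) (hy : y < 2 ^ qm K s)
    (hr : r < 2 ^ qr J s) :
    Nat.size (wd K J s a x y r) = qn K J s + 1 ∧ sC K J (wd K J s a x y r) = s := by
  have h1 : Nat.size (wd K J s a x y r) = qn K J s + 1 := by
    unfold wd
    have h := wd_lt (K := K) (J := J) ha hx hy hr
    refine le_antisymm ?_ ?_
    · rw [Nat.size_le, pow_succ]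
      omega
    · exact Nat.lt_size.mpr (by omega)
  refine ⟨h1, ?_⟩
  unfold sC
  rw [h1]
  refine mu_eq ?_ rfl fun j hj => ?_
  · unfold qn
    omega
  · intro h
    have := qn_inj (K := K) (J := J) (s := j) (s' := s) (by omega)
    omega

theorem LC_wd {c K J s a x y r : ℕ} {F : ℕ × ℕ → Prop} (ha : a < 2 ^ s) (hx : x < 2 ^ qm K s)
    (hy : y < 2 ^ qm K s) (hr : r < 2 ^ qr J s) :
    LC c K J F (wd K J s a x y r) ↔ x < qp K s ∧ pv c K F s a x = y := by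
  obtain ⟨h1, h2⟩ := sC_wd ha hx hy hr
  unfold LC
  rw [h2, h1]
  have e0 : wd K J s a x y r - 2 ^ qn K J s =
      x + 2 ^ qm K s * (y + 2 ^ qm K s * (r + 2 ^ qr J s * a)) := by
    unfold wd
    omega
  rw [e0, digit_mod hx, digit_div hx, digit_mod hy, digit_div hy, digit_div hr]
  constructor
  · rintro ⟨-, h3⟩
    exact h3
  · intro h3
    exact ⟨by unfold qn; omega, h3⟩

/-! ### Definability -/

section

variable {C : NClass} [Calc C] {α β : Type} [Ctx α] [Ctx β]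

/-- `s a` is linear in the length of `a` -/
def Lv (s : α → ℕ) : Prop := ∃ c, ∀ a, s a ≤ c * (sz a + 1)

theorem Lv.comp {s : β → ℕ} (hs : Lv s) {g : α → β} (hg : Fn C g) : Lv (fun a => s (g a)) := by
  obtain ⟨c, hc⟩ := hs
  obtain ⟨c', hc'⟩ := hg.bd
  exact ⟨c * (c' + 1), fun a => lin_trans (hc (g a)) (hc' a)⟩

/-- an exponent which is linear in `s` -/
theorem Lv.lin {s : α → ℕ} (hs : Lv s) {f : ℕ → ℕ} (hf : ∃ c, ∀ n, f n ≤ c * (n + 1)) :
    ∃ c, ∀ a, f (s a) ≤ c * (sz a + 1) := by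
  obtain ⟨c, hc⟩ := hs
  obtain ⟨c', hc'⟩ := hf
  refine ⟨c' * (c + 1), fun a => ?_⟩
  refine (hc' (s a)).trans ?_
  rw [mul_assoc]
  refine Nat.mul_le_mul_left _ ?_
  have := hc a
  nlinarith

protected theorem Fn.qm (K : ℕ) {s : α → ℕ} (hs : Fn C s) : Fn C (fun a => qm K (s a)) := by
  unfold qm
  fun_prop

protected theorem Fn.qr (J : ℕ) {s : α → ℕ} (hs : Fn C s) : Fn C (fun a => qr J (s a)) := by
  unfold qr
  fun_prop

protected theorem Fn.qn (K J : ℕ) {s : α → ℕ} (hs : Fn C s) : Fn C (fun a => qn K J (s a)) := by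
  unfold qn qm qr
  fun_prop

theorem qn_lin (K J : ℕ) : ∃ c, ∀ n, qn K J n ≤ c * (n + 1) :=
  ⟨2 * (K + 2) + J + 1, fun n => by unfold qn qm qr; nlinarith⟩

protected theorem Fn.pow_qm (K : ℕ) {s : α → ℕ} (hs : Fn C s) (h : Lv s) :
    Fn C (fun a => 2 ^ qm K (s a)) := by
  obtain ⟨c, hc⟩ := h.lin (f := qm K) ⟨K + 2, fun n => by unfold qm; nlinarith⟩
  exact Fn.pow2 (Fn.qm K hs) c hc

protected theorem Fn.pow_qr (J : ℕ) {s : α → ℕ} (hs : Fn C s) (h : Lv s) :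
    Fn C (fun a => 2 ^ qr J (s a)) := by
  obtain ⟨c, hc⟩ := h.lin (f := qr J) ⟨J, fun n => le_rfl⟩
  exact Fn.pow2 (Fn.qr J hs) c hc

protected theorem Fn.pow_qn (K J : ℕ) {s : α → ℕ} (hs : Fn C s) (h : Lv s) :
    Fn C (fun a => 2 ^ qn K J (s a)) := by
  obtain ⟨c, hc⟩ := h.lin (qn_lin K J)
  exact Fn.pow2 (Fn.qn K J hs) c hc

protected theorem Fn.pow_c (c : ℕ) {s : α → ℕ} (hs : Fn C s) (h : Lv s) :
    Fn C (fun a => 2 ^ (c * (s a + 1))) := by
  obtain ⟨c', hc'⟩ := h.lin (f := fun n => c * (n + 1)) ⟨c, fun n => le_rfl⟩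
  exact Fn.pow2 (by fun_prop) c' hc'

protected theorem Fn.qp (K : ℕ) {s : α → ℕ} (hs : Fn C s) (h : Lv s) :
    Fn C (fun a => qp K (s a)) := by
  have h1 := Fn.pow_c K hs h
  have h2 : Fn C (fun a => 2 ^ (K * (s a + 1) + 1)) := by
    have : Fn C (fun a => 2 ^ (K * (s a + 1)) * 2) := by fun_prop
    exact this.congr fun a => pow_succ _ _
  have h5 : Fn C (fun a => mu (2 ^ (K * (s a + 1) + 1) + 1)
      fun i => 2 ^ (K * (s a + 1)) ≤ i ∧ i.Prime) := by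
    refine Fn.mu (by fun_prop) ?_
    have h6 : Fn C (fun q : α × ℕ => 2 ^ (K * (s q.1 + 1))) :=
      h1.comp (f := fun q : α × ℕ => q.1) (by fun_prop)
    fun_prop
  exact h5

protected theorem Fn.wd (K J : ℕ) {s a x y r : α → ℕ} (hs : Fn C s) (h : Lv s) (ha : Fn C a)
    (hx : Fn C x) (hy : Fn C y) (hr : Fn C r) :
    Fn C (fun q => wd K J (s q) (a q) (x q) (y q) (r q)) := by
  have h1 := Fn.pow_qm K hs h
  have h2 := Fn.pow_qn K J hs h
  have h3 := Fn.pow_qr J hs h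
  unfold wd
  fun_prop

protected theorem Fn.pv (c K : ℕ) {F : ℕ × ℕ → Prop} (hF : Pr C F) {s a x : α → ℕ} (hs : Fn C s)
    (h : Lv s) (ha : Fn C a) (hx : Fn C x) : Fn C (fun q => pv c K F (s q) (a q) (x q)) := by
  classical
  unfold pv
  refine Fn.lag (S := fun _ _ => True) (w := fun q t => if F (a q, t) then 1 else 0)
    (Fn.qp K hs h) (Fn.pow_c c hs h) hx (Pr.const True) ?_ (fun q => (qp_spec K (s q)).1.pos)
  refine LSC.Fn.ite ?_ (LSC.Fn.const 1) (LSC.Fn.const 0)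
  refine hF.comp (f := fun q : α × ℕ => (a q.1, q.2)) ?_
  have : Fn C (fun q : α × ℕ => a q.1) := ha.comp (f := fun q : α × ℕ => q.1) (by fun_prop)
  fun_prop

protected theorem Pr.LC (c K J : ℕ) {F : ℕ × ℕ → Prop} (hF : Pr C F) : Pr C (LC c K J F) := by
  have hs : Fn C (fun N : ℕ => sC K J N) := by
    unfold sC
    refine Fn.mu (by fun_prop) ?_
    have : Fn C (fun q : ℕ × ℕ => qn K J q.2) := Fn.qn K J (by fun_prop)
    fun_prop
  have hv : Lv (fun N : ℕ => sC K J N) := ⟨1, fun N => by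
    rw [sz_nat]
    have : sC K J N ≤ Nat.size N := mu_le _ _
    show sC K J N ≤ 1 * (Nat.size N + 1)
    omega⟩
  have h1 := Fn.pow_qm K hs hv
  have h2 := Fn.pow_qn K J hs hv
  have h3 := Fn.qp K hs hv
  have h3' := Fn.pow_qr J hs hv
  have h4 : Fn C (fun N : ℕ => (N - 2 ^ qn K J (sC K J N)) % 2 ^ qm K (sC K J N)) := by fun_prop
  have h5 : Fn C (fun N : ℕ =>
      (N - 2 ^ qn K J (sC K J N)) / 2 ^ qm K (sC K J N) % 2 ^ qm K (sC K J N)) := by
    fun_prop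
  have h6 : Fn C (fun N : ℕ => (N - 2 ^ qn K J (sC K J N)) / 2 ^ qm K (sC K J N) /
      2 ^ qm K (sC K J N) / 2 ^ qr J (sC K J N)) := by
    fun_prop
  have h7 := Fn.pv c K hF hs hv h6 h4
  have h8 : Pr C (fun N : ℕ => sC K J N < Nat.size N) := by fun_prop
  exact h8.and ((Pr.lt h4 h3).and (Pr.eq h7 h5))

end

/-! ### The advice -/

/-- the advice: the number of a function of the family, the bound, the padding, the number of a set -/
def pk (K J s u v z r y : ℕ) : ℕ :=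
  u + 2 ^ qm K s * (v + 2 ^ qm K s * (z + 2 ^ qm K s * (r + 2 ^ qr J s * y)))

/-- the point `x` is selected by the function and belongs to the projection of the set -/
def SQ (K J : ℕ) (sa : ℕ → ℕ) (Q : ℕ × ℕ → Prop) (q : ℕ × ℕ × ℕ) (x : ℕ) : Prop :=
  (q.1 % 2 ^ qm K (sa q.2.1) * x + q.1 / 2 ^ qm K (sa q.2.1) % 2 ^ qm K (sa q.2.1)) %
      qp K (sa q.2.1) <
    q.1 / 2 ^ qm K (sa q.2.1) / 2 ^ qm K (sa q.2.1) % 2 ^ qm K (sa q.2.1) ∧
  ∃ y < qp K (sa q.2.1), Q (wd K J (sa q.2.1) q.2.1 x y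
    (q.1 / 2 ^ qm K (sa q.2.1) / 2 ^ qm K (sa q.2.1) / 2 ^ qm K (sa q.2.1) % 2 ^ qr J (sa q.2.1)),
    q.1 / 2 ^ qm K (sa q.2.1) / 2 ^ qm K (sa q.2.1) / 2 ^ qm K (sa q.2.1) / 2 ^ qr J (sa q.2.1))

/-- the values at the points -/
noncomputable def wQ (K J : ℕ) (sa : ℕ → ℕ) (Q : ℕ × ℕ → Prop) (q : ℕ × ℕ × ℕ) (x : ℕ) : ℕ :=
  mu (qp K (sa q.2.1)) fun y => Q (wd K J (sa q.2.1) q.2.1 x y
    (q.1 / 2 ^ qm K (sa q.2.1) / 2 ^ qm K (sa q.2.1) / 2 ^ qm K (sa q.2.1) % 2 ^ qr J (sa q.2.1)),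
    q.1 / 2 ^ qm K (sa q.2.1) / 2 ^ qm K (sa q.2.1) / 2 ^ qm K (sa q.2.1) / 2 ^ qr J (sa q.2.1))

theorem SQ_pk {K J : ℕ} {sa : ℕ → ℕ} {Q : ℕ × ℕ → Prop} {u v z r y a t x : ℕ}
    (hu : u < 2 ^ qm K (sa a)) (hv : v < 2 ^ qm K (sa a)) (hz : z < 2 ^ qm K (sa a))
    (hr : r < 2 ^ qr J (sa a)) :
    SQ K J sa Q (pk K J (sa a) u v z r y, a, t) x ↔
      (u * x + v) % qp K (sa a) < z ∧ ∃ y' < qp K (sa a), Q (wd K J (sa a) a x y' r, y) := by
  unfold SQ pk
  simp only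
  rw [digit_mod hu, digit_div hu, digit_mod hv, digit_div hv, digit_mod hz, digit_div hz,
    digit_mod hr, digit_div hr]

theorem wQ_pk {K J : ℕ} {sa : ℕ → ℕ} {Q : ℕ × ℕ → Prop} {u v z r y a t x : ℕ}
    (hu : u < 2 ^ qm K (sa a)) (hv : v < 2 ^ qm K (sa a)) (hz : z < 2 ^ qm K (sa a))
    (hr : r < 2 ^ qr J (sa a)) :
    wQ K J sa Q (pk K J (sa a) u v z r y, a, t) x =
      mu (qp K (sa a)) fun y' => Q (wd K J (sa a) a x y' r, y) := by
  unfold wQ pk
  simp only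
  rw [digit_div hu, digit_div hv, digit_div hz, digit_mod hr, digit_div hr]

theorem pk_size {K J s u v z r y c : ℕ} (hu : u < 2 ^ qm K s) (hv : v < 2 ^ qm K s)
    (hz : z < 2 ^ qm K s) (hr : r < 2 ^ qr J s) (hy : Nat.size y ≤ c * (qn K J s + 1)) :
    Nat.size (pk K J s u v z r y) ≤ (c + 2) * (qn K J s + 1) := by
  rw [Nat.size_le]
  have hy' : y < 2 ^ (c * (qn K J s + 1)) := Nat.size_le.1 hy
  refine (digit_lt hu (digit_lt hv (digit_lt hz (digit_lt hr hy')))).trans_le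
    (Nat.pow_le_pow_right (by norm_num) ?_)
  have : (c + 2) * (qn K J s + 1) = c * (qn K J s + 1) + 2 * (qn K J s + 1) := by ring
  rw [this]
  unfold qn
  omega

/-! ### The theorem -/

theorem exists_K (γ δ : ℝ) (hγ : 0 ≤ γ) (hδ : 0 ≤ δ) (h : 2 * γ + δ < 1) (c : ℕ) : ∃ K J : ℕ, ∀ s : ℕ,
    (32 : ℝ) * 2 ^ (c * (s + 1)) * (2 : ℝ) ^ (γ * (qn K J s : ℕ)) ≤ 2 ^ (K * (s + 1)) ∧
    (32 : ℝ) * 2 ^ (c * (s + 1)) * (2 : ℝ) ^ ((γ + δ) * (qn K J s : ℕ)) ≤
      2 ^ (K * (s + 1)) * 2 ^ qr J s := by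
  obtain ⟨M, hM⟩ := exists_nat_ge ((14 + c) / ((1 - δ - 2 * γ) / 2))
  have h1 : 0 < (1 - δ - 2 * γ) / 2 := by linarith
  rw [div_le_iff₀ h1] at hM
  set K := ⌈(1 - δ) / 2 * M⌉₊ with hK
  set J := ⌈δ * M⌉₊ with hJ
  have hM0 : (0 : ℝ) ≤ M := Nat.cast_nonneg M
  have hK1 : (1 - δ) / 2 * M ≤ K := Nat.le_ceil _
  have hK2 : (K : ℝ) < (1 - δ) / 2 * M + 1 := Nat.ceil_lt_add_one (by
    have : 0 ≤ (1 - δ) / 2 := by linarith
    positivity)
  have hJ1 : δ * M ≤ J := Nat.le_ceil _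
  have hJ2 : (J : ℝ) < δ * M + 1 := Nat.ceil_lt_add_one (by positivity)
  have hγ1 : γ ≤ 1 / 2 := by linarith
  have hδ1 : γ + δ ≤ 1 := by linarith
  have hc : (0 : ℝ) ≤ c := Nat.cast_nonneg c
  have hN : (2 : ℝ) * K + J ≤ M + 3 := by linarith
  have key : ∀ (θ A : ℝ), 0 ≤ θ → θ ≤ 1 → 5 + c + 4 * θ + θ * (M + 3) ≤ A → ∀ s : ℕ,
      (5 : ℝ) + c * (s + 1) + θ * (2 * (K * (s + 1) + 2) + J * (s + 1) + s) ≤ A * (s + 1) := by
    intro θ A hθ hθ1 hA s
    have hs : (0 : ℝ) ≤ s := Nat.cast_nonneg s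
    have e1 : θ * (2 * (K * (s + 1) + 2) + J * (s + 1) + s) ≤ θ * ((2 * K + J + 4) * (s + 1)) := by
      refine mul_le_mul_of_nonneg_left ?_ hθ
      nlinarith
    have e2 : θ * ((2 * K + J + 4) * (s + 1)) ≤ θ * (M + 3 + 4) * (s + 1) := by
      have : θ * ((2 * K + J + 4) * (s + 1)) = θ * (2 * K + J + 4) * (s + 1) := by ring
      rw [this]
      refine mul_le_mul_of_nonneg_right ?_ (by positivity)
      exact mul_le_mul_of_nonneg_left (by linarith) hθ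
    have e3 : (5 + c + 4 * θ + θ * (M + 3)) * (s + 1) ≤ A * (s + 1) :=
      mul_le_mul_of_nonneg_right hA (by positivity)
    nlinarith
  have h32 : (32 : ℝ) = 2 ^ (5 : ℝ) := by norm_num
  refine ⟨K, J, fun s => ⟨?_, ?_⟩⟩
  · rw [← Real.rpow_natCast 2 (c * (s + 1)), ← Real.rpow_natCast 2 (K * (s + 1)), h32,
      ← Real.rpow_add (by norm_num), ← Real.rpow_add (by norm_num)]
    refine Real.rpow_le_rpow_of_exponent_le (by norm_num) ?_
    have := key γ K hγ (by linarith) (by nlinarith) s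
    unfold qn qm qr
    push_cast
    linarith
  · rw [← Real.rpow_natCast 2 (c * (s + 1)), ← Real.rpow_natCast 2 (K * (s + 1)),
      ← Real.rpow_natCast 2 (qr J s), h32,
      ← Real.rpow_add (by norm_num), ← Real.rpow_add (by norm_num), ← Real.rpow_add (by norm_num)]
    refine Real.rpow_le_rpow_of_exponent_le (by norm_num) ?_
    have := key (γ + δ) (K + J) (by positivity) hδ1 (by nlinarith) s
    unfold qn qm qr
    push_cast
    linarith

end LSA
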